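import Mathlib

set_option autoImplicit false

namespace Pool.Agent.Results.MP_8ab495_co.LogUpperBound

open Finset

/-- The value plus one for `true` and minus one for `false`. -/
def sg (b : Bool) : ℤ := if b then 1 else -1

/-- The entries of the Sylvester matrix, indexed by Boolean vectors of length `m`. -/
def had {m : ℕ} (i j : Fin m → Bool) : ℤ := ∏ t : Fin m, (if i t && j t then -1 else 1)

lemma sg_sq (b : Bool) : sg b * sg b = 1 := by cases b <;> simp [sg]

lemma had_abs {m : ℕ} (i j : Fin m → Bool) : |had i j| = 1 := by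
  unfold had
  rw [Finset.abs_prod]
  apply Finset.prod_eq_one
  intro t _
  split_ifs <;> simp

lemma had_orth {m : ℕ} (j j' : Fin m → Bool) :
    ∑ i : Fin m → Bool, had i j * had i j' = if j = j' then (2 : ℤ) ^ m else 0 := by
  have h1 : ∀ i : Fin m → Bool, had i j * had i j'
      = ∏ t : Fin m, ((if i t && j t then -1 else 1) * (if i t && j' t then (-1 : ℤ) else 1)) := by
    intro i
    unfold had
    rw [Finset.prod_mul_distrib]
  simp_rw [h1]
  have h2 : ∑ i : Fin m → Bool,
      ∏ t : Fin m, ((if i t && j t then -1 else 1) * (if i t && j' t then (-1 : ℤ) else 1))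
      = ∏ t : Fin m, ∑ b : Bool,
        ((if b && j t then -1 else 1) * (if b && j' t then (-1 : ℤ) else 1)) := by
    rw [Finset.prod_univ_sum, Fintype.piFinset_univ]
  rw [h2]
  by_cases hj : j = j'
  · subst hj
    simp only [if_true]
    have : ∀ t : Fin m, ∑ b : Bool,
        ((if b && j t then -1 else 1) * (if b && j t then (-1 : ℤ) else 1)) = 2 := by
      intro t
      rw [Fintype.sum_bool]
      cases j t <;> simp
    rw [Finset.prod_congr rfl (fun t _ => this t)]
    simp
  · rw [if_neg hj]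
    obtain ⟨t, ht⟩ := Function.ne_iff.mp hj
    apply Finset.prod_eq_zero (Finset.mem_univ t)
    rw [Fintype.sum_bool]
    cases h1 : j t <;> cases h2 : j' t <;> simp_all

/-- The linear form attached to the row `i`. -/
def lin {m n : ℕ} (e : (Fin m → Bool) ↪ Fin n) (i : Fin m → Bool) (x : Fin n → Bool) : ℤ :=
  ∑ j : Fin m → Bool, had i j * sg (x (e j))

lemma parseval {m n : ℕ} (e : (Fin m → Bool) ↪ Fin n) (x : Fin n → Bool) :
    ∑ i : Fin m → Bool, lin e i x * lin e i x = (2 : ℤ) ^ m * 2 ^ m := by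
  have h : ∀ i : Fin m → Bool, lin e i x * lin e i x
      = ∑ j : Fin m → Bool, ∑ j' : Fin m → Bool,
        (sg (x (e j)) * sg (x (e j'))) * (had i j * had i j') := by
    intro i
    unfold lin
    rw [Finset.sum_mul_sum]
    apply Finset.sum_congr rfl
    intro j _
    apply Finset.sum_congr rfl
    intro j' _
    ring
  simp_rw [h]
  rw [Finset.sum_comm]
  have h2 : ∀ j : Fin m → Bool, ∑ i : Fin m → Bool, ∑ j' : Fin m → Bool,
        (sg (x (e j)) * sg (x (e j'))) * (had i j * had i j') = 2 ^ m := by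
    intro j
    rw [Finset.sum_comm]
    have h3 : ∀ j' : Fin m → Bool, ∑ i : Fin m → Bool,
        (sg (x (e j)) * sg (x (e j'))) * (had i j * had i j')
        = if j = j' then (2 : ℤ) ^ m else 0 := by
      intro j'
      rw [← Finset.mul_sum, had_orth]
      by_cases hj : j = j'
      · subst hj
        simp [sg_sq]
      · simp [hj]
    simp_rw [h3]
    simp
  simp_rw [h2]
  simp

lemma exists_large {r n : ℕ} (e : (Fin (2 * r) → Bool) ↪ Fin n) (x : Fin n → Bool) :
    ∃ i : Fin (2 * r) → Bool, (2 : ℤ) ^ r ≤ |lin e i x| := by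
  by_contra hcon
  push Not at hcon
  have hlt : ∀ i : Fin (2 * r) → Bool, lin e i x * lin e i x < (2 : ℤ) ^ (2 * r) := by
    intro i
    have h1 := hcon i
    have h2 : lin e i x * lin e i x = |lin e i x| * |lin e i x| := by
      rw [abs_mul_abs_self]
    have h3 : (2 : ℤ) ^ (2 * r) = 2 ^ r * 2 ^ r := by rw [two_mul, pow_add]
    rw [h2, h3]
    have h0 : 0 ≤ |lin e i x| := abs_nonneg _
    nlinarith
  have hsum : ∑ i : Fin (2 * r) → Bool, lin e i x * lin e i x
      < ∑ _i : Fin (2 * r) → Bool, (2 : ℤ) ^ (2 * r) :=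
    Finset.sum_lt_sum_of_nonempty Finset.univ_nonempty (fun i _ => hlt i)
  rw [parseval] at hsum
  simp at hsum

lemma lip {m n : ℕ} (e : (Fin m → Bool) ↪ Fin n) (i : Fin m → Bool) (x y : Fin n → Bool) :
    |lin e i x - lin e i y| ≤ 2 * (hammingDist x y : ℤ) := by
  unfold lin
  rw [← Finset.sum_sub_distrib]
  have h1 : |∑ j : Fin m → Bool, (had i j * sg (x (e j)) - had i j * sg (y (e j)))|
      ≤ ∑ j : Fin m → Bool, (if x (e j) ≠ y (e j) then (2 : ℤ) else 0) := by
    refine (Finset.abs_sum_le_sum_abs _ _).trans ?_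
    apply Finset.sum_le_sum
    intro j _
    rw [← mul_sub, abs_mul, had_abs, one_mul]
    cases x (e j) <;> cases y (e j) <;> simp [sg]
  refine h1.trans ?_
  rw [← Finset.sum_filter, Finset.sum_const, nsmul_eq_mul, mul_comm]
  have h2 : (Finset.univ.filter (fun j : Fin m → Bool => x (e j) ≠ y (e j))).card
      ≤ hammingDist x y := by
    unfold hammingDist
    rw [← Finset.card_map e]
    apply Finset.card_le_card
    intro t ht
    simp only [Finset.mem_map, Finset.mem_filter, Finset.mem_univ, true_and] at ht ⊢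
    obtain ⟨j, hj, rfl⟩ := ht
    exact hj
  have h3 : ((Finset.univ.filter (fun j : Fin m → Bool => x (e j) ≠ y (e j))).card : ℤ)
      ≤ (hammingDist x y : ℤ) := by exact_mod_cast h2
  linarith

lemma lin_neg {m n : ℕ} (e : (Fin m → Bool) ↪ Fin n) (i : Fin m → Bool) (x : Fin n → Bool) :
    lin e i (fun t => !(x t)) = - lin e i x := by
  unfold lin
  rw [← Finset.sum_neg_distrib]
  apply Finset.sum_congr rfl
  intro j _
  cases h : x (e j) <;> simp [sg, h]

lemma dist_neg {n : ℕ} (x y : Fin n → Bool) :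
    hammingDist x y + hammingDist (fun t => !(x t)) y = n := by
  unfold hammingDist
  have h : (Finset.univ.filter (fun t : Fin n => (!(x t)) ≠ y t))
      = (Finset.univ.filter (fun t : Fin n => x t ≠ y t))ᶜ := by
    ext t
    simp only [Finset.mem_filter, Finset.mem_univ, true_and, Finset.mem_compl]
    cases x t <;> cases y t <;> simp
  rw [h, Finset.card_add_card_compl, Fintype.card_fin]

/-- The completion attached to an index choice. -/
def compl {r n : ℕ} (e : (Fin (2 * r) → Bool) ↪ Fin n)
    (c : (Fin n → Bool) → (Fin (2 * r) → Bool)) (x y : Fin n → Bool) : Bool :=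
  (decide (0 < lin e (c x) x)) == (decide (0 < lin e (c x) y))

lemma main (r k n : ℕ) (hk : 2 * k < 2 ^ r) (hn : 2 ^ (2 * r) ≤ n) :
    ∃ A : (Fin n → Bool) → (Fin n → Bool) → Bool,
      (∀ x y : Fin n → Bool, hammingDist x y ≤ k → A x y = true) ∧
      (∀ x y : Fin n → Bool, n - k ≤ hammingDist x y → A x y = false) ∧
      ∀ S : Finset (Fin n → Bool),
        (∀ T ⊆ S, ∃ x : Fin n → Bool, ∀ y ∈ S, (A x y = true ↔ y ∈ T)) →
        S.card ≤ 2 * r + 1 := by
  have hcard : Fintype.card (Fin (2 * r) → Bool) ≤ Fintype.card (Fin n) := by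
    simpa using hn
  obtain ⟨e⟩ : Nonempty ((Fin (2 * r) → Bool) ↪ Fin n) :=
    Function.Embedding.nonempty_of_card_le hcard
  choose c hc using fun x : Fin n → Bool => exists_large e x
  have hkz : 2 * (k : ℤ) < 2 ^ r := by exact_mod_cast hk
  refine ⟨compl e c, ?_, ?_, ?_⟩
  · intro x y hxy
    have h1 := hc x
    have h2 := lip e (c x) x y
    have h3 : (hammingDist x y : ℤ) ≤ k := by exact_mod_cast hxy
    have h4 : |lin e (c x) x - lin e (c x) y| < |lin e (c x) x| := by linarith
    unfold compl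
    rw [beq_iff_eq]
    apply decide_eq_decide.mpr
    rcases le_or_gt (lin e (c x) x) 0 with h | h
    · rw [abs_of_nonpos h] at h4
      have := (abs_lt.mp h4).1
      constructor <;> intro h' <;> linarith
    · rw [abs_of_pos h] at h4
      have := (abs_lt.mp h4).2
      constructor <;> intro h' <;> linarith
  · intro x y hxy
    have h1 := hc x
    have h0 := dist_neg x y
    have h3' : hammingDist (fun t => !(x t)) y ≤ k := by omega
    have h2 := lip e (c x) (fun t => !(x t)) y
    rw [lin_neg] at h2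
    have h3 : (hammingDist (fun t => !(x t)) y : ℤ) ≤ k := by exact_mod_cast h3'
    have h4 : |-lin e (c x) x - lin e (c x) y| < |lin e (c x) x| := by linarith
    unfold compl
    rw [beq_eq_false_iff_ne]
    intro hcon
    have hiff := decide_eq_decide.mp hcon
    rcases le_or_gt (lin e (c x) x) 0 with h | h
    · rw [abs_of_nonpos h] at h4
      have h5 := (abs_lt.mp h4).2
      have h6 : 0 < lin e (c x) y := by linarith
      have := hiff.mpr h6
      linarith
    · rw [abs_of_pos h] at h4
      have h5 := (abs_lt.mp h4).1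
      have h6 := hiff.mp h
      linarith
  · intro S hS
    have hS' : ∀ T : Finset (Fin n → Bool), ∃ x : Fin n → Bool,
        T ⊆ S → ∀ y ∈ S, (compl e c x y = true ↔ y ∈ T) := by
      intro T
      by_cases hT : T ⊆ S
      · obtain ⟨x, hx⟩ := hS T hT
        exact ⟨x, fun _ => hx⟩
      · exact ⟨fun _ => true, fun h => absurd h hT⟩
    choose w hw using hS'
    have hinj : Set.InjOn (fun T : Finset (Fin n → Bool) =>
        ((c (w T), decide (0 < lin e (c (w T)) (w T))) : (Fin (2 * r) → Bool) × Bool))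
        (S.powerset : Set (Finset (Fin n → Bool))) := by
      intro T hT T' hT' heq
      have hTS : T ⊆ S := by simpa using hT
      have hTS' : T' ⊆ S := by simpa using hT'
      simp only [Prod.mk.injEq] at heq
      obtain ⟨he1, he2⟩ := heq
      have hval : ∀ y, compl e c (w T) y = compl e c (w T') y := by
        intro y
        unfold compl
        rw [he2, he1]
      ext y
      constructor
      · intro hy
        have h1 := (hw T hTS y (hTS hy)).mpr hy
        rw [hval] at h1
        exact (hw T' hTS' y (hTS hy)).mp h1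
      · intro hy
        have h1 := (hw T' hTS' y (hTS' hy)).mpr hy
        rw [← hval] at h1
        exact (hw T hTS y (hTS' hy)).mp h1
    have hle := Finset.card_le_card_of_injOn _ (fun T _ => Finset.mem_univ _) hinj
    rw [Finset.card_powerset, Finset.card_univ, Fintype.card_prod] at hle
    simp only [Fintype.card_pi, Fintype.card_bool, Finset.prod_const, Finset.card_univ,
      Fintype.card_fin] at hle
    rw [← pow_succ] at hle
    exact (Nat.pow_le_pow_iff_right (by norm_num)).mp hle

/-- For all `k ≥ 1` and `n ≥ 16 k ^ 2` some total completion of the gap Hamming matrix has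
VC dimension at most `2 log₂ k + 5`; hence every function `g` that is a valid lower bound for the
VC dimension of all total completions satisfies `g k ≤ 2 log₂ k + 5`. -/
theorem result :
    (∀ k n : ℕ, 1 ≤ k → 16 * k ^ 2 ≤ n →
      ∃ A : (Fin n → Bool) → (Fin n → Bool) → Bool,
        (∀ x y : Fin n → Bool, hammingDist x y ≤ k → A x y = true) ∧
        (∀ x y : Fin n → Bool, n - k ≤ hammingDist x y → A x y = false) ∧
        ∀ S : Finset (Fin n → Bool),
          (∀ T ⊆ S, ∃ x : Fin n → Bool, ∀ y ∈ S, (A x y = true ↔ y ∈ T)) →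
          S.card ≤ 2 * Nat.log 2 k + 5) ∧
    (∀ g : ℕ → ℕ,
      (∀ k n : ℕ, 2 * k < n →
        ∀ A : (Fin n → Bool) → (Fin n → Bool) → Bool,
          (∀ x y : Fin n → Bool, hammingDist x y ≤ k → A x y = true) →
          (∀ x y : Fin n → Bool, n - k ≤ hammingDist x y → A x y = false) →
          ∃ S : Finset (Fin n → Bool), g k ≤ S.card ∧
            ∀ T ⊆ S, ∃ x : Fin n → Bool, ∀ y ∈ S, (A x y = true ↔ y ∈ T)) →
      ∀ k : ℕ, 1 ≤ k → g k ≤ 2 * Nat.log 2 k + 5) := by
  have key : ∀ k n : ℕ, 1 ≤ k → 16 * k ^ 2 ≤ n →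
      ∃ A : (Fin n → Bool) → (Fin n → Bool) → Bool,
        (∀ x y : Fin n → Bool, hammingDist x y ≤ k → A x y = true) ∧
        (∀ x y : Fin n → Bool, n - k ≤ hammingDist x y → A x y = false) ∧
        ∀ S : Finset (Fin n → Bool),
          (∀ T ⊆ S, ∃ x : Fin n → Bool, ∀ y ∈ S, (A x y = true ↔ y ∈ T)) →
          S.card ≤ 2 * Nat.log 2 k + 5 := by
    intro k n hk hn
    have h1 : 2 ^ Nat.log 2 k ≤ k := Nat.pow_log_le_self 2 (by omega)
    have h2 : k < 2 ^ (Nat.log 2 k + 1) := Nat.lt_pow_succ_log_self (by norm_num) k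
    have h3 : 2 * k < 2 ^ (Nat.log 2 k + 2) := by
      rw [pow_succ 2 (Nat.log 2 k + 1)]
      omega
    have h4 : 2 ^ (2 * (Nat.log 2 k + 2)) ≤ n := by
      refine le_trans ?_ hn
      have h5 : 2 ^ (2 * (Nat.log 2 k + 2)) = 16 * (2 ^ Nat.log 2 k) ^ 2 := by
        rw [mul_add, pow_add, ← pow_mul, mul_comm (Nat.log 2 k) 2]
        norm_num [mul_comm]
      rw [h5]
      exact Nat.mul_le_mul_left _ (Nat.pow_le_pow_left h1 2)
    obtain ⟨A, hA1, hA2, hA3⟩ := main (Nat.log 2 k + 2) k n h3 h4
    refine ⟨A, hA1, hA2, fun S hS => ?_⟩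
    have := hA3 S hS
    omega
  refine ⟨key, ?_⟩
  intro g hg k hk
  obtain ⟨A, hA1, hA2, hA3⟩ := key k (16 * k ^ 2) hk le_rfl
  have hkn : 2 * k < 16 * k ^ 2 := by nlinarith
  obtain ⟨S, hS1, hS2⟩ := hg k (16 * k ^ 2) hkn A hA1 hA2
  exact hS1.trans (hA3 S hS2)

end Pool.Agent.Results.MP_8ab495_co.LogUpperBound
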